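import Pool.Agent.helper35.BQ.Spec

/-!
# bq:CYT

A finite group with a normal `p`-subgroup and cyclic quotient is of type `TwoT`.
-/

namespace Pool.Agent.BQ

open Pool.Agent.helper58.DC Pool.Agent.DI Pool.Agent.DR Pool.Agent.NQ

/-- In the quotient by a subgroup with cyclic quotient the class of `s` generates. -/
theorem CYT_mem {U : Type} [Group U] (Q : Subgroup U) [Q.Normal] (s : U)
    (hs : ∀ x : U, ∃ k : ℤ, s ^ k * x ∈ Q) (y : U ⧸ Q) :
    ∃ k : ℤ, (QuotientGroup.mk s : U ⧸ Q) ^ k = y := by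
  induction y using QuotientGroup.induction_on with
  | H x =>
    obtain ⟨k, hk⟩ := hs x
    refine ⟨-k, ?_⟩
    have h := (QuotientGroup.eq_one_iff (N := Q) (s ^ k * x)).mpr hk
    rw [QuotientGroup.mk_mul, QuotientGroup.mk_zpow] at h
    rw [zpow_neg]
    exact (eq_inv_of_mul_eq_one_right h).symm

/-- Commutators lie in a subgroup with cyclic quotient. -/
theorem CYT_comm {U : Type} [Group U] (Q : Subgroup U) [Q.Normal] (s : U)
    (hs : ∀ x : U, ∃ k : ℤ, s ^ k * x ∈ Q) (x y : U) : x * y * x⁻¹ * y⁻¹ ∈ Q := by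
  obtain ⟨a, ha⟩ := CYT_mem Q s hs (QuotientGroup.mk x)
  obtain ⟨b, hb⟩ := CYT_mem Q s hs (QuotientGroup.mk y)
  refine (QuotientGroup.eq_one_iff (N := Q) _).mp ?_
  rw [QuotientGroup.mk_mul, QuotientGroup.mk_mul, QuotientGroup.mk_mul, QuotientGroup.mk_inv,
    QuotientGroup.mk_inv, ← ha, ← hb]
  group

/-- A group with a normal `p`-subgroup and cyclic quotient is of type `TwoT`. -/
theorem CYT : CYT_stmt := by
  intro p n hp U _ _ hQ
  obtain ⟨Q, hQp, hQn, s, hs⟩ := hQ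
  have := hQn
  obtain ⟨P, hQP⟩ := hQp.exists_le_sylow
  refine ⟨⟨(P : Subgroup U), P.isPGroup', ⟨?_⟩, ?_, P.not_dvd_index, s, 1, ?_⟩, ?_⟩
  · intro x hx g
    have h1 : g * x * g⁻¹ * x⁻¹ ∈ (P : Subgroup U) := hQP (CYT_comm Q s hs g x)
    have h2 := (P : Subgroup U).mul_mem h1 hx
    simpa [mul_assoc] using h2
  · intro x y
    exact hQP (CYT_comm Q s hs x y)
  · intro x
    obtain ⟨k, hk⟩ := hs x
    refine ⟨k, 0, ?_⟩
    simpa using hQP hk
  · intro r hr hrp _ R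
    have : Fact r.Prime := ⟨hr⟩
    have : IsCyclic (U ⧸ Q) := ⟨⟨QuotientGroup.mk s, fun y => by
      obtain ⟨k, hk⟩ := CYT_mem Q s hs y
      exact Subgroup.mem_zpowers_iff.mpr ⟨k, hk⟩⟩⟩
    refine isCyclic_of_injective
      ((QuotientGroup.mk' Q).comp (R : Subgroup U).subtype) ?_
    rw [injective_iff_map_eq_one]
    intro x hx
    have h1 : (x : U) ∈ Q := (QuotientGroup.eq_one_iff (N := Q) (x : U)).mp hx
    have hd := IsPGroup.disjoint_of_ne r p hrp (R : Subgroup U) Q R.isPGroup' hQp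
    have h2 := (Subgroup.disjoint_def.mp hd) x.2 h1
    exact Subtype.ext h2

end Pool.Agent.BQ
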