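import Mathlib

/-!
# BQ, module EXL: the exchange lemma (abstract combinatorics)
-/

namespace BQ

open scoped Classical in
/-- number of members of `s` which contain `x` -/
noncomputable def EXL_cnt {X : Type} (x : X) (s : Multiset (Set X)) : ℕ :=
  s.countP (fun P => x ∈ P)

open scoped Classical in
theorem EXL_cnt_cons {X : Type} (x : X) (P : Set X) (s : Multiset (Set X)) :
    EXL_cnt x (P ::ₘ s) = EXL_cnt x s + if x ∈ P then 1 else 0 := by
  unfold EXL_cnt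
  rw [Multiset.countP_cons]

/-- exchange `x` and `c x` in a type containing `x` -/
def EXL_flip {X : Type} (c : X → X) (P : Set X) (x : X) : Set X := {y | (y ∈ P ∧ y ≠ x) ∨ y = c x}

theorem EXL_flip_type {X : Type} {c : X → X} (hc : ∀ x, c (c x) = x) (hne : ∀ x, c x ≠ x)
    {P : Set X} (hP : ∀ x, c x ∈ P ↔ x ∉ P) (x : X) :
    ∀ y, c y ∈ EXL_flip c P x ↔ y ∉ EXL_flip c P x := by
  intro y
  have hinj : Function.Injective c := fun a b h => by rw [← hc a, ← hc b, h]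
  change ((c y ∈ P ∧ c y ≠ x) ∨ c y = c x) ↔ ¬ ((y ∈ P ∧ y ≠ x) ∨ y = c x)
  rw [hP y]
  by_cases h1 : y = x
  · subst h1
    constructor
    · rintro _ (⟨_, h⟩ | h)
      · exact h rfl
      · exact hne y h.symm
    · intro _
      exact Or.inr rfl
  · by_cases h2 : y = c x
    · subst h2
      constructor
      · rintro (⟨_, h⟩ | h)
        · exact absurd (hc x) h
        · exact absurd (hinj h) (hne x)
      · intro h
        exact absurd (Or.inr rfl) h
    · have h3 : c y ≠ x := by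
        intro h
        exact h2 (by rw [← h, hc])
      have h4 : c y ≠ c x := fun h => h1 (hinj h)
      constructor
      · rintro (⟨h, _⟩ | h)
        · rintro (⟨h', _⟩ | h')
          · exact h h'
          · exact h2 h'
        · exact absurd h h4
      · intro h
        refine Or.inl ⟨fun h' => h (Or.inl ⟨h', h1⟩), h3⟩

theorem EXL_compl {X : Type} {c : X → X} {P Q : Set X} (hP : ∀ x, c x ∈ P ↔ x ∉ P)
    (hQ : ∀ x, c x ∈ Q ↔ x ∉ Q) (h : ¬ (P ∩ Q).Nonempty) : Q = Pᶜ := by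
  ext x
  constructor
  · intro hx hx'
    exact h ⟨x, hx', hx⟩
  · intro hx
    by_contra hxQ
    exact h ⟨c x, (hP x).mpr hx, (hQ x).mpr hxQ⟩

open scoped Classical in
theorem EXL_cnt_pair {X : Type} {Pa Pb Pc Pd : Set X} (h1 : Pa ∩ Pb = Pc ∩ Pd)
    (h2 : Pa ∪ Pb = Pc ∪ Pd) (s : Multiset (Set X)) (x : X) :
    EXL_cnt x (Pa ::ₘ Pb ::ₘ s) = EXL_cnt x (Pc ::ₘ Pd ::ₘ s) := by
  rw [EXL_cnt_cons, EXL_cnt_cons, EXL_cnt_cons, EXL_cnt_cons]
  have e1 : (x ∈ Pa ∧ x ∈ Pb) ↔ (x ∈ Pc ∧ x ∈ Pd) := by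
    have := Set.ext_iff.mp h1 x
    simpa only [Set.mem_inter_iff] using this
  have e2 : (x ∈ Pa ∨ x ∈ Pb) ↔ (x ∈ Pc ∨ x ∈ Pd) := by
    have := Set.ext_iff.mp h2 x
    simpa only [Set.mem_union] using this
  by_cases ha : x ∈ Pa <;> by_cases hb : x ∈ Pb <;> by_cases hc : x ∈ Pc <;>
    by_cases hd : x ∈ Pd <;> simp_all

theorem EXL_flip_inter {X : Type} {c : X → X} (hc : ∀ x, c (c x) = x) (hne : ∀ x, c x ≠ x)
    {P Q : Set X} (hP : ∀ x, c x ∈ P ↔ x ∉ P) (hQ : ∀ x, c x ∈ Q ↔ x ∉ Q) {x : X}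
    (hx : x ∈ P) (hx' : x ∉ Q) :
    P ∩ Q = EXL_flip c P x ∩ EXL_flip c Q (c x) ∧
      P ∪ Q = EXL_flip c P x ∪ EXL_flip c Q (c x) := by
  have h1 : c x ∉ P := fun h => (hP x).mp h hx
  have h2 : c x ∈ Q := (hQ x).mpr hx'
  have h3 : c x ≠ x := hne x
  have h4 : x ≠ c x := fun h => h3 h.symm
  constructor
  · ext y
    change (y ∈ P ∧ y ∈ Q) ↔ (((y ∈ P ∧ y ≠ x) ∨ y = c x) ∧ ((y ∈ Q ∧ y ≠ c x) ∨ y = c (c x)))
    rw [hc]
    by_cases e1 : y = x
    · subst e1
      constructor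
      · rintro ⟨_, h⟩
        exact absurd h hx'
      · rintro ⟨⟨_, h⟩ | h, _⟩
        · exact absurd rfl h
        · exact absurd h h4
    · by_cases e2 : y = c x
      · subst e2
        constructor
        · rintro ⟨h, _⟩
          exact absurd h h1
        · rintro ⟨_, ⟨_, h⟩ | h⟩
          · exact absurd rfl h
          · exact absurd h h3
      · constructor
        · rintro ⟨ha, hb⟩
          exact ⟨Or.inl ⟨ha, e1⟩, Or.inl ⟨hb, e2⟩⟩
        · rintro ⟨⟨ha, _⟩ | ha, ⟨hb, _⟩ | hb⟩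
          · exact ⟨ha, hb⟩
          · exact absurd hb e1
          · exact absurd ha e2
          · exact absurd ha e2
  · ext y
    change (y ∈ P ∨ y ∈ Q) ↔ (((y ∈ P ∧ y ≠ x) ∨ y = c x) ∨ ((y ∈ Q ∧ y ≠ c x) ∨ y = c (c x)))
    rw [hc]
    by_cases e1 : y = x
    · subst e1
      exact ⟨fun _ => Or.inr (Or.inr rfl), fun _ => Or.inl hx⟩
    · by_cases e2 : y = c x
      · subst e2
        exact ⟨fun _ => Or.inl (Or.inr rfl), fun _ => Or.inr h2⟩
      · constructor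
        · rintro (h | h)
          · exact Or.inl (Or.inl ⟨h, e1⟩)
          · exact Or.inr (Or.inl ⟨h, e2⟩)
        · rintro ((⟨h, _⟩ | h) | (⟨h, _⟩ | h))
          · exact Or.inl h
          · exact absurd h e2
          · exact Or.inr h
          · exact absurd h e1

open scoped Classical in
theorem EXL_aux (X : Type) [Fintype X] [Nonempty X] (c : X → X) (hc : ∀ x, c (c x) = x)
    (hne : ∀ x, c x ≠ x) (R : Multiset (Set X) → Prop) (h0 : R 0)
    (hp : ∀ (P : Set X) (s : Multiset (Set X)), (∀ x, c x ∈ P ↔ x ∉ P) → R s →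
      R (P ::ₘ Pᶜ ::ₘ s))
    (he : ∀ (Pa Pb Pc Pd : Set X) (s : Multiset (Set X)), (∀ x, c x ∈ Pa ↔ x ∉ Pa) →
      (∀ x, c x ∈ Pb ↔ x ∉ Pb) → (∀ x, c x ∈ Pc ↔ x ∉ Pc) → (∀ x, c x ∈ Pd ↔ x ∉ Pd) →
      Pa ∩ Pb = Pc ∩ Pd → Pa ∪ Pb = Pc ∪ Pd → (Pa ∩ Pb).Nonempty →
      R (Pc ::ₘ Pd ::ₘ s) → R (Pa ::ₘ Pb ::ₘ s)) (n : ℕ) :
    ∀ s : Multiset (Set X), s.card = n → (∀ P ∈ s, ∀ x, c x ∈ P ↔ x ∉ P) →
      (∀ x : X, 2 * EXL_cnt x s = s.card) → R s := by
  induction n using Nat.strong_induction_on with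
  | _ n ih =>
  -- inner induction
  have inner : ∀ k : ℕ, ∀ (P1 P2 : Set X) (s : Multiset (Set X)), (P1 ∩ P2).ncard = k →
      (P1 ::ₘ P2 ::ₘ s).card = n → (∀ P ∈ P1 ::ₘ P2 ::ₘ s, ∀ x, c x ∈ P ↔ x ∉ P) →
      (∀ x : X, 2 * EXL_cnt x (P1 ::ₘ P2 ::ₘ s) = (P1 ::ₘ P2 ::ₘ s).card) →
      R (P1 ::ₘ P2 ::ₘ s) := by
    intro k
    induction k using Nat.strong_induction_on with
    | _ k ihk =>
    intro P1 P2 s hk hn ht hb
    have hP1 : ∀ x, c x ∈ P1 ↔ x ∉ P1 := ht P1 (Multiset.mem_cons_self _ _)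
    have hP2 : ∀ x, c x ∈ P2 ↔ x ∉ P2 :=
      ht P2 (Multiset.mem_cons_of_mem (Multiset.mem_cons_self _ _))
    have hts : ∀ P ∈ s, ∀ x, c x ∈ P ↔ x ∉ P := fun P hP =>
      ht P (Multiset.mem_cons_of_mem (Multiset.mem_cons_of_mem hP))
    have hcard : s.card + 2 = n := by
      rw [← hn, Multiset.card_cons, Multiset.card_cons]
    -- removal of a complementary pair
    have hremove : ∀ (P : Set X) (s0 : Multiset (Set X)), (∀ x, c x ∈ P ↔ x ∉ P) →
        (∀ P ∈ s0, ∀ x, c x ∈ P ↔ x ∉ P) →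
        (∀ x : X, 2 * EXL_cnt x (P ::ₘ Pᶜ ::ₘ s0) = (P ::ₘ Pᶜ ::ₘ s0).card) →
        s0.card + 2 = n → R (P ::ₘ Pᶜ ::ₘ s0) := by
      intro P s0 hP hs0 hb0 hc0
      refine hp P s0 hP (ih s0.card (by omega) s0 rfl hs0 ?_)
      intro x
      have := hb0 x
      rw [EXL_cnt_cons, EXL_cnt_cons, Multiset.card_cons, Multiset.card_cons] at this
      by_cases hx : x ∈ P
      · have hx' : x ∉ Pᶜ := fun h => h hx
        rw [if_pos hx, if_neg hx'] at this
        omega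
      · have hx' : x ∈ Pᶜ := hx
        rw [if_neg hx, if_pos hx'] at this
        omega
    by_cases hemp : (P1 ∩ P2).Nonempty
    · obtain ⟨x, hx1, hx2⟩ := hemp
      have hexP : ∃ P ∈ s, x ∉ P := by
        by_contra hcon
        push Not at hcon
        have h1 : EXL_cnt x s = s.card := by
          unfold EXL_cnt
          exact Multiset.countP_eq_card.mpr hcon
        have := hb x
        rw [EXL_cnt_cons, EXL_cnt_cons, if_pos hx1, if_pos hx2, h1, Multiset.card_cons,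
          Multiset.card_cons] at this
        omega
      obtain ⟨P, hPs, hxP⟩ := hexP
      obtain ⟨s'', rfl⟩ := Multiset.exists_cons_of_mem hPs
      have hP : ∀ x, c x ∈ P ↔ x ∉ P := hts P (Multiset.mem_cons_self _ _)
      have hts'' : ∀ P ∈ s'', ∀ x, c x ∈ P ↔ x ∉ P := fun Q hQ =>
        hts Q (Multiset.mem_cons_of_mem hQ)
      have hperm : P1 ::ₘ P2 ::ₘ P ::ₘ s'' = P2 ::ₘ P ::ₘ P1 ::ₘ s'' := by
        rw [Multiset.cons_swap P1 P2, Multiset.cons_swap P1 P]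
      have hts1 : ∀ Q ∈ P1 ::ₘ s'', ∀ x, c x ∈ Q ↔ x ∉ Q := by
        intro Q hQ
        rcases Multiset.mem_cons.mp hQ with rfl | hQ
        · exact hP1
        · exact hts'' Q hQ
      have hcard1 : (P1 ::ₘ s'').card + 2 = n := by
        rw [← hcard, Multiset.card_cons, Multiset.card_cons]
      by_cases hemp2 : (P2 ∩ P).Nonempty
      · -- the exchange
        have hfl := EXL_flip_inter hc hne hP2 hP hx2 hxP
        have ht2 := EXL_flip_type hc hne hP2 x
        have ht3 := EXL_flip_type hc hne hP (c x)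
        rw [hperm]
        refine he P2 P (EXL_flip c P2 x) (EXL_flip c P (c x)) (P1 ::ₘ s'') hP2 hP ht2 ht3
          hfl.1 hfl.2 hemp2 ?_
        have hperm' : EXL_flip c P2 x ::ₘ EXL_flip c P (c x) ::ₘ P1 ::ₘ s'' =
            P1 ::ₘ EXL_flip c P2 x ::ₘ EXL_flip c P (c x) ::ₘ s'' := by
          rw [Multiset.cons_swap (EXL_flip c P (c x)) P1, Multiset.cons_swap (EXL_flip c P2 x) P1]
        have hbal' : ∀ y : X, 2 * EXL_cnt y (EXL_flip c P2 x ::ₘ EXL_flip c P (c x) ::ₘ P1 ::ₘ s'')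
            = (EXL_flip c P2 x ::ₘ EXL_flip c P (c x) ::ₘ P1 ::ₘ s'').card := by
          intro y
          rw [← EXL_cnt_pair hfl.1 hfl.2, ← hperm, hb y]
          simp only [Multiset.card_cons]
        rw [hperm'] at hbal' ⊢
        have hlt : (P1 ∩ EXL_flip c P2 x).ncard < k := by
          rw [← hk]
          refine Set.ncard_lt_ncard ?_ (Set.toFinite _)
          refine ⟨?_, ?_⟩
          · rintro y ⟨hy1, hy2⟩
            rcases hy2 with ⟨h, _⟩ | h
            · exact ⟨hy1, h⟩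
            · exfalso
              rw [h] at hy1
              exact (hP1 x).mp hy1 hx1
          · intro hsub
            have := hsub ⟨hx1, hx2⟩
            rcases this.2 with ⟨_, h⟩ | h
            · exact h rfl
            · exact hne x h.symm
        refine ihk _ hlt P1 (EXL_flip c P2 x) (EXL_flip c P (c x) ::ₘ s'') rfl ?_ ?_ hbal'
        · rw [← hn]
          simp only [Multiset.card_cons]
        · intro Q hQ
          rcases Multiset.mem_cons.mp hQ with rfl | hQ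
          · exact hP1
          rcases Multiset.mem_cons.mp hQ with rfl | hQ
          · exact ht2
          rcases Multiset.mem_cons.mp hQ with rfl | hQ
          · exact ht3
          exact hts'' Q hQ
      · have hcompl := EXL_compl hP2 hP hemp2
        subst hcompl
        rw [hperm] at hb ⊢
        exact hremove P2 (P1 ::ₘ s'') hP2 hts1 hb hcard1
    · have hcompl := EXL_compl hP1 hP2 hemp
      subst hcompl
      exact hremove P1 s hP1 hts hb hcard
  intro s hs ht hb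
  rcases Multiset.empty_or_exists_mem s with rfl | ⟨P1, hP1⟩
  · exact h0
  · obtain ⟨s1, rfl⟩ := Multiset.exists_cons_of_mem hP1
    rcases Multiset.empty_or_exists_mem s1 with rfl | ⟨P2, hP2⟩
    · exfalso
      obtain ⟨x⟩ := ‹Nonempty X›
      have := hb x
      rw [Multiset.card_cons, Multiset.card_zero] at this
      omega
    · obtain ⟨s2, rfl⟩ := Multiset.exists_cons_of_mem hP2
      exact inner _ P1 P2 s2 rfl hs ht hb

/-- EXL, with the necessary hypothesis that `X` is nonempty -/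
theorem EXL : ∀ (X : Type) [Fintype X] [DecidableEq X] [Nonempty X] (c : X → X),
  (∀ x, c (c x) = x) →
  (∀ x, c x ≠ x) → ∀ R : Multiset (Set X) → Prop, R 0 →
  (∀ (P : Set X) (s : Multiset (Set X)), (∀ x, c x ∈ P ↔ x ∉ P) → R s → R (P ::ₘ Pᶜ ::ₘ s)) →
  (∀ (Pa Pb Pc Pd : Set X) (s : Multiset (Set X)), (∀ x, c x ∈ Pa ↔ x ∉ Pa) →
    (∀ x, c x ∈ Pb ↔ x ∉ Pb) → (∀ x, c x ∈ Pc ↔ x ∉ Pc) → (∀ x, c x ∈ Pd ↔ x ∉ Pd) →
    Pa ∩ Pb = Pc ∩ Pd → Pa ∪ Pb = Pc ∪ Pd → (Pa ∩ Pb).Nonempty →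
    R (Pc ::ₘ Pd ::ₘ s) → R (Pa ::ₘ Pb ::ₘ s)) →
  ∀ s : Multiset (Set X), (∀ P ∈ s, ∀ x, c x ∈ P ↔ x ∉ P) →
  (∀ (x : X) (_ : DecidablePred fun P : Set X => x ∈ P),
    2 * s.countP (fun P => x ∈ P) = s.card) → R s := by
  intro X _ _ _ c hc hne R h0 hp he s ht hb
  exact EXL_aux X c hc hne R h0 hp he s.card s rfl ht (fun x => hb x _)

end BQ
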