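import Pool.Agent.helper76.BQ.MSpec

/-!
# BQ, module MT4: continuity and uniform convergence of the family of 2-forms
-/

open scoped BigOperators ComplexConjugate Matrix Topology
open MeasureTheory Filter

namespace BQ

/-- the abstract statement -/
theorem MT4_abs {P Z : Type} [TopologicalSpace P] [TopologicalSpace Z] (G : P → Z → ℂ)
    (B : Set Z) (p0 : P) (hc : ContinuousOn (fun q : P × Z => G q.1 q.2) (Set.univ ×ˢ B)) :
    (∀ t : P, ContinuousOn (G t) B) ∧
    ∀ t : ℕ → P, Tendsto t atTop (𝓝 p0) → ∀ K : Set Z, IsCompact K → K ⊆ B →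
      TendstoUniformlyOn (fun n => G (t n)) (G p0) atTop K := by
  refine ⟨?_, ?_⟩
  · intro t
    have h1 : ContinuousOn (fun z : Z => ((t, z) : P × Z)) B :=
      (Continuous.prodMk continuous_const continuous_id).continuousOn
    have hmaps : Set.MapsTo (fun z : Z => ((t, z) : P × Z)) B (Set.univ ×ˢ B) :=
      fun z hz => ⟨Set.mem_univ _, hz⟩
    exact hc.comp h1 hmaps
  · intro t ht K hK hKB
    rw [Metric.tendstoUniformlyOn_iff]
    intro ε hε
    have hf : ContinuousOn (Function.uncurry G) (Set.univ ×ˢ K) := by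
      refine ContinuousOn.mono ?_ (Set.prod_mono (subset_refl _) hKB)
      exact hc
    have hu := Metric.dist_mem_uniformity (α := ℂ) hε
    obtain ⟨v, hv, hvu⟩ := IsCompact.mem_uniformity_of_prod hK hf (Set.mem_univ p0) hu
    rw [nhdsWithin_univ] at hv
    filter_upwards [ht hv] with n hn x hx
    have h3 := hvu (t n) hn x hx
    rw [dist_comm]
    exact h3

/-- MT4 from B8a and the bridge MBa -/
theorem MT4 (hB8 : B8a_stmt) (hMB : MBa_stmt) : MT4_stmt := by
  intro F _ _ kap d v0 H δ hδ φ hφ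
  obtain ⟨_, hBall, _, hData⟩ := hMB
  have hne : ∀ l, δ l ≠ 0 := by
    intro l h0
    have h := hδ l
    rw [h0, map_zero] at h
    exact lt_irrefl _ h
  have hc := hB8 F kap d v0 (hData F kap d v0 H) δ hne hδ φ hφ
  rw [hBall] at hc
  exact MT4_abs (fun s : (F →+* ℝ) → ℝ =>
    Pool.Agent.helper76.BQ.th2 kap d v0 (Pool.Agent.helper76.BQ.Mt δ s) φ) (Ball (v0 d)) 0 hc

end BQ
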