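import Pool.Agent.helper28.BQ.SpecK

/-!
# BQ, module ME: the unitary group acts on the ball, equivariance of the majorant
-/

open scoped BigOperators ComplexConjugate Matrix

namespace BQ

theorem ME_herm (t : ℝ) (X Y : Fin 3 → ℂ) : herm t X Y = star X ⬝ᵥ (Hm t *ᵥ Y) := by
  unfold herm Hm
  simp only [dotProduct, Fin.sum_univ_three, Matrix.mulVec_diagonal, Pi.star_apply,
    Matrix.cons_val_zero, Matrix.cons_val_one, Matrix.cons_val]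
  simp only [RCLike.star_def]
  ring

theorem ME_inv {t : ℝ} {g : Matrix (Fin 3) (Fin 3) ℂ} (hg : gᴴ * Hm t * g = Hm t)
    (X Y : Fin 3 → ℂ) : herm t (g *ᵥ X) (g *ᵥ Y) = herm t X Y := by
  rw [ME_herm, ME_herm, Matrix.star_mulVec, ← Matrix.dotProduct_mulVec, Matrix.mulVec_mulVec,
    Matrix.mulVec_mulVec, hg]

theorem ME_self (t : ℝ) (X : Fin 3 → ℂ) :
    herm t X X = ((‖X 0‖ ^ 2 + ‖X 1‖ ^ 2 - t * ‖X 2‖ ^ 2 : ℝ) : ℂ) := by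
  unfold herm
  have h : ∀ z : ℂ, conj z * z = ((‖z‖ ^ 2 : ℝ) : ℂ) := by
    intro z
    rw [Complex.conj_mul', Complex.ofReal_pow]
  rw [h, h, h]
  push_cast
  ring

theorem ME_smul_left (t : ℝ) (c : ℂ) (X Y : Fin 3 → ℂ) :
    herm t (c • X) Y = conj c * herm t X Y := by
  unfold herm
  simp only [Pi.smul_apply, smul_eq_mul, map_mul]
  ring

theorem ME_zt_two (w : Fin 2 → ℂ) : zt w 2 = 1 := rfl

theorem ME_zt_mob {g : Matrix (Fin 3) (Fin 3) ℂ} {w : Fin 2 → ℂ} (h2 : (g *ᵥ zt w) 2 ≠ 0) :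
    zt (mob g w) = ((g *ᵥ zt w) 2)⁻¹ • (g *ᵥ zt w) := by
  funext i
  fin_cases i
  · change (g *ᵥ zt w) 0 / (g *ᵥ zt w) 2 = ((g *ᵥ zt w) 2)⁻¹ * (g *ᵥ zt w) 0
    rw [div_eq_inv_mul]
  · change (g *ᵥ zt w) 1 / (g *ᵥ zt w) 2 = ((g *ᵥ zt w) 2)⁻¹ * (g *ᵥ zt w) 1
    rw [div_eq_inv_mul]
  · change (1 : ℂ) = ((g *ᵥ zt w) 2)⁻¹ * (g *ᵥ zt w) 2
    rw [inv_mul_cancel₀ h2]

theorem ME_rel {t : ℝ} {g : Matrix (Fin 3) (Fin 3) ℂ} (hg : gᴴ * Hm t * g = Hm t)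
    (w : Fin 2 → ℂ) : ‖(g *ᵥ zt w) 0‖ ^ 2 + ‖(g *ᵥ zt w) 1‖ ^ 2 - t * ‖(g *ᵥ zt w) 2‖ ^ 2 =
      ‖w 0‖ ^ 2 + ‖w 1‖ ^ 2 - t := by
  have h := ME_inv hg (zt w) (zt w)
  rw [ME_self, ME_self, ME_zt_two, norm_one, one_pow, mul_one] at h
  exact_mod_cast h

theorem ME_two_ne {t : ℝ} {g : Matrix (Fin 3) (Fin 3) ℂ} (hg : gᴴ * Hm t * g = Hm t)
    {w : Fin 2 → ℂ} (hw : w ∈ Ball t) : (g *ᵥ zt w) 2 ≠ 0 := by
  intro h0
  have h := ME_rel hg w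
  rw [h0, norm_zero] at h
  have hw' : ‖w 0‖ ^ 2 + ‖w 1‖ ^ 2 < t := hw
  have h1 := sq_nonneg ‖(g *ᵥ zt w) 0‖
  have h2 := sq_nonneg ‖(g *ᵥ zt w) 1‖
  linarith

theorem ME_denom {t : ℝ} {g : Matrix (Fin 3) (Fin 3) ℂ} (hg : gᴴ * Hm t * g = Hm t)
    {w : Fin 2 → ℂ} (hw : w ∈ Ball t) :
    t - ‖mob g w 0‖ ^ 2 - ‖mob g w 1‖ ^ 2 = (t - ‖w 0‖ ^ 2 - ‖w 1‖ ^ 2) / ‖(g *ᵥ zt w) 2‖ ^ 2 := by
  have h2 := ME_two_ne hg hw
  have hn : ‖(g *ᵥ zt w) 2‖ ^ 2 ≠ 0 := pow_ne_zero 2 (norm_ne_zero_iff.mpr h2)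
  have h := ME_rel hg w
  have e0 : mob g w 0 = (g *ᵥ zt w) 0 / (g *ᵥ zt w) 2 := rfl
  have e1 : mob g w 1 = (g *ᵥ zt w) 1 / (g *ᵥ zt w) 2 := rfl
  rw [e0, e1, norm_div, norm_div, div_pow, div_pow]
  field_simp
  linarith

theorem ME : ME_stmt := by
  intro t g h w ht hg hh hw
  have h2 := ME_two_ne hg hw
  have hn : (0 : ℝ) < ‖(g *ᵥ zt w) 2‖ ^ 2 := by
    have := norm_pos_iff.mpr h2
    positivity
  have hden := ME_denom hg hw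
  have hw' : ‖w 0‖ ^ 2 + ‖w 1‖ ^ 2 < t := hw
  have hpos : 0 < t - ‖w 0‖ ^ 2 - ‖w 1‖ ^ 2 := by linarith
  have hzt := ME_zt_mob h2
  have hball : mob g w ∈ Ball t := by
    have h3 : 0 < t - ‖mob g w 0‖ ^ 2 - ‖mob g w 1‖ ^ 2 := by
      rw [hden]
      exact div_pos hpos hn
    change ‖mob g w 0‖ ^ 2 + ‖mob g w 1‖ ^ 2 < t
    linarith
  refine ⟨h2, hball, hzt, ?_, ?_, ?_, hden, ?_⟩
  · have hc : ((g *ᵥ zt w) 2)⁻¹ ≠ 0 := inv_ne_zero h2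
    have hV : h *ᵥ zt (mob g w) = ((g *ᵥ zt w) 2)⁻¹ • ((h * g) *ᵥ zt w) := by
      rw [hzt, Matrix.mulVec_smul, Matrix.mulVec_mulVec]
    funext i
    fin_cases i
    · change ((h * g) *ᵥ zt w) 0 / ((h * g) *ᵥ zt w) 2 =
        (h *ᵥ zt (mob g w)) 0 / (h *ᵥ zt (mob g w)) 2
      rw [hV, Pi.smul_apply, Pi.smul_apply, smul_eq_mul, smul_eq_mul, mul_div_mul_left _ _ hc]
    · change ((h * g) *ᵥ zt w) 1 / ((h * g) *ᵥ zt w) 2 =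
        (h *ᵥ zt (mob g w)) 1 / (h *ᵥ zt (mob g w)) 2
      rw [hV, Pi.smul_apply, Pi.smul_apply, smul_eq_mul, smul_eq_mul, mul_div_mul_left _ _ hc]
  · funext i
    fin_cases i
    · change ((1 : Matrix (Fin 3) (Fin 3) ℂ) *ᵥ zt w) 0 /
        ((1 : Matrix (Fin 3) (Fin 3) ℂ) *ᵥ zt w) 2 = w 0
      rw [Matrix.one_mulVec, ME_zt_two, div_one]
      rfl
    · change ((1 : Matrix (Fin 3) (Fin 3) ℂ) *ᵥ zt w) 1 /
        ((1 : Matrix (Fin 3) (Fin 3) ℂ) *ᵥ zt w) 2 = w 1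
      rw [Matrix.one_mulVec, ME_zt_two, div_one]
      rfl
  · intro X
    unfold maj
    rw [hden, hzt, ME_smul_left, ME_inv hg, ME_inv hg, norm_mul, RCLike.norm_conj, norm_inv,
      mul_pow, inv_pow]
    have hp := hpos.ne'
    have hn' := hn.ne'
    field_simp
  · have e : (Nz t w).re = t - (w 0 ^ 2).re - (w 1 ^ 2).re := by
      unfold Nz
      simp
    have h0 : (w 0 ^ 2).re ≤ ‖w 0‖ ^ 2 := by
      rw [← norm_pow]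
      exact Complex.re_le_norm _
    have h1 : (w 1 ^ 2).re ≤ ‖w 1‖ ^ 2 := by
      rw [← norm_pow]
      exact Complex.re_le_norm _
    rw [e]
    linarith

end BQ
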